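import Mathlib

/-!
# Counting forests of a 7-vertex graph

The graph consists of an edge `{3,5}`, three paths of length two and one path of length three,
all joining the vertices `3` and `5`.
-/

open Finset SimpleGraph
open scoped Classical

namespace Pool.Agent.H36.ForestCount

/-- The spanning forests of `G` with exactly `k` connected components, as edge sets:
`F ⊆ E(G)`, `(V, F)` has no cycle and has exactly `k` connected components. -/
noncomputable def forests {V : Type} [Fintype V] (G : SimpleGraph V) (k : ℕ) :
    Finset (Finset (Sym2 V)) :=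
  Finset.univ.filter (fun F => (F : Set (Sym2 V)) ⊆ G.edgeSet ∧
    (fromEdgeSet (F : Set (Sym2 V))).IsAcyclic ∧
    Nat.card (fromEdgeSet (F : Set (Sym2 V))).ConnectedComponent = k)

/-- `UF_k[ω(e) = 1]`: the proportion of the `k`-component spanning forests of `G` containing
the edge `e`. -/
noncomputable def UF {V : Type} [Fintype V] (G : SimpleGraph V) (k : ℕ) (e : Sym2 V) : ℚ :=
  (((forests G k).filter (fun F => e ∈ F)).card : ℚ) / ((forests G k).card : ℚ)

/-! ### lists of edges on `Fin 7` -/

/-- the graph of a list of pairs -/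
def gr (l : List (Fin 7 × Fin 7)) : SimpleGraph (Fin 7) :=
  fromEdgeSet {z | z ∈ l.map (fun p => s(p.1, p.2))}

/-- component labels (as a function) -/
def labF : List (Fin 7 × Fin 7) → Fin 7 → Fin 7
  | [] => id
  | e :: l => fun x => if labF l x = labF l e.1 then labF l e.2 else labF l x

/-- component labels (as a list) -/
def lab : List (Fin 7 × Fin 7) → List (Fin 7)
  | [] => [0, 1, 2, 3, 4, 5, 6]
  | e :: l => (lab l).map (fun x => if x = (lab l).getD e.1 0 then (lab l).getD e.2 0 else x)

lemma lab_eq : ∀ l, lab l = List.ofFn (labF l)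
  | [] => by simp [lab, labF, List.ofFn_succ]
  | e :: l => by
    simp only [lab, labF]
    rw [lab_eq l]
    have h : ∀ i : Fin 7, (List.ofFn (labF l)).getD i 0 = labF l i := by
      intro i
      fin_cases i <;> rfl
    rw [h, h, List.map_ofFn]
    rfl

/-- acyclicity check -/
def acyc : List (Fin 7 × Fin 7) → Bool
  | [] => true
  | e :: l => acyc l && ((lab l).getD e.1 0 != (lab l).getD e.2 0)

lemma getD_lab (l : List (Fin 7 × Fin 7)) (i : Fin 7) : (lab l).getD i 0 = labF l i := by
  rw [lab_eq]
  fin_cases i <;> rfl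

lemma gr_cons (e : Fin 7 × Fin 7) (l : List (Fin 7 × Fin 7)) :
    gr (e :: l) = gr l ⊔ edge e.1 e.2 := by
  unfold gr edge
  rw [← fromEdgeSet_union]
  congr 1
  ext z
  simp only [List.map_cons, List.mem_cons, Set.mem_setOf_eq, Set.mem_union, Set.mem_singleton_iff]
  tauto

lemma gr_le_cons (e : Fin 7 × Fin 7) (l : List (Fin 7 × Fin 7)) : gr l ≤ gr (e :: l) := by
  rw [gr_cons]; exact le_sup_left

lemma reach (l : List (Fin 7 × Fin 7)) : ∀ x y, (gr l).Reachable x y ↔ labF l x = labF l y := by
  induction l with
  | nil =>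
    intro x y
    have : gr [] = ⊥ := by ext a b; simp [gr]
    rw [this]
    simp [labF]
  | cons e l ih =>
    intro x y
    constructor
    · have hadj : ∀ a b, (gr (e :: l)).Adj a b → labF (e :: l) a = labF (e :: l) b := by
        intro a b hab
        rw [gr_cons, sup_adj] at hab
        rcases hab with hab | hab
        · have := (ih a b).mp hab.reachable
          simp only [labF, this]
        · rw [edge_adj] at hab
          simp only [labF]
          rcases hab.1 with ⟨rfl, rfl⟩ | ⟨rfl, rfl⟩
          · simp only [if_true]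
            split_ifs <;> rfl
          · simp only [if_true]
            split_ifs <;> rfl
      rintro ⟨w⟩
      induction w with
      | nil => rfl
      | cons h _ ih2 => exact (hadj _ _ h).trans ih2
    · intro h
      have hle := gr_le_cons e l
      have he : (gr (e :: l)).Reachable e.1 e.2 := by
        by_cases h12 : e.1 = e.2
        · rw [h12]
        · apply SimpleGraph.Adj.reachable
          rw [gr_cons, sup_adj, edge_adj]
          right
          exact ⟨Or.inl ⟨rfl, rfl⟩, h12⟩
      simp only [labF] at h
      split_ifs at h with h1 h2 h2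
      · exact ((ih x y).mpr (h1.trans h2.symm)).mono hle
      · have a1 := ((ih x e.1).mpr h1).mono hle
        have a2 := ((ih e.2 y).mpr h).mono hle
        exact a1.trans (he.trans a2)
      · have a1 := ((ih x e.2).mpr h).mono hle
        have a2 := ((ih e.1 y).mpr h2.symm).mono hle
        exact a1.trans (he.symm.trans a2)
      · exact ((ih x y).mpr h).mono hle

lemma acyc_iff (l : List (Fin 7 × Fin 7)) (hl : (l.map (fun p => s(p.1, p.2))).Nodup)
    (hne : ∀ p ∈ l, p.1 ≠ p.2) : (gr l).IsAcyclic ↔ acyc l = true := by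
  induction l with
  | nil =>
    have : gr [] = ⊥ := by ext a b; simp [gr]
    rw [this]
    simp [acyc]
  | cons e l ih =>
    rw [List.map_cons, List.nodup_cons] at hl
    have ih' := ih hl.2 (fun p hp => hne p (List.mem_cons_of_mem _ hp))
    have he := hne e List.mem_cons_self
    rw [gr_cons, isAcyclic_sup_fromEdgeSet_iff, ih', reach]
    simp only [acyc, getD_lab, Bool.and_eq_true, bne_iff_ne, ne_eq]
    constructor
    · rintro ⟨h1, h2⟩
      refine ⟨h1, fun h3 => ?_⟩
      rcases h2 h3 with h4 | h4
      · exact he h4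
      · apply hl.1
        unfold gr at h4
        rw [fromEdgeSet_adj] at h4
        exact h4.1
    · rintro ⟨h1, h2⟩
      exact ⟨h1, fun h3 => absurd h3 h2⟩

lemma comps_eq (l : List (Fin 7 × Fin 7)) :
    Nat.card (gr l).ConnectedComponent = (lab l).dedup.length := by
  rw [← List.card_toFinset]
  have h1 : (lab l).toFinset = Finset.univ.image (labF l) := by
    rw [lab_eq]; ext x
    rw [List.mem_toFinset, List.mem_ofFn, Finset.mem_image]
    simp
  rw [h1]
  let f : (gr l).ConnectedComponent → {x // x ∈ Finset.univ.image (labF l)} :=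
    ConnectedComponent.lift (fun v => ⟨labF l v, Finset.mem_image_of_mem _ (Finset.mem_univ v)⟩)
      (fun v w p _ => by
        apply Subtype.ext
        exact (reach l v w).mp ⟨p⟩)
  have hf : Function.Bijective f := by
    constructor
    · intro a b
      refine ConnectedComponent.ind₂ (fun v w h => ?_) a b
      have : labF l v = labF l w := congrArg Subtype.val h
      exact ConnectedComponent.sound ((reach l v w).mpr this)
    · rintro ⟨x, hx⟩
      rw [Finset.mem_image] at hx
      obtain ⟨v, _, rfl⟩ := hx
      exact ⟨(gr l).connectedComponentMk v, rfl⟩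
  rw [Nat.card_congr (Equiv.ofBijective f hf), Nat.card_eq_fintype_card, Fintype.card_coe]

/-- the edges of the graph -/
def eds : List (Fin 7 × Fin 7) :=
  [(0, 4), (5, 6), (0, 3), (1, 5), (2, 5), (3, 5), (1, 3), (2, 3), (4, 5), (3, 6)]

/-- the graph -/
def G0 : SimpleGraph (Fin 7) := gr eds

lemma eds_nodup : (eds.map (fun p => s(p.1, p.2))).Nodup := by decide

lemma eds_nodup' : eds.Nodup := eds_nodup.of_map _

lemma eds_ne : ∀ p ∈ eds, p.1 ≠ p.2 := by decide

lemma sublist_eq_filter {α : Type} [DecidableEq α] {l L : List α} (h : l.Sublist L) :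
    L.Nodup → l = L.filter (fun a => a ∈ l) := by
  induction h with
  | slnil => intro _; rfl
  | @cons l L a h ih =>
    intro hn
    rw [List.nodup_cons] at hn
    have ha : a ∉ l := fun hc => hn.1 (h.subset hc)
    rw [List.filter_cons_of_neg (by simpa using ha)]
    exact ih hn.2
  | @cons_cons l L a h ih =>
    intro hn
    rw [List.nodup_cons] at hn
    rw [List.filter_cons_of_pos (by simp)]
    congr 1
    conv_lhs => rw [ih hn.2]
    apply List.filter_congr
    intro x hx
    have : x ≠ a := fun hc => hn.1 (hc ▸ hx)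
    simp [this]

/-- the edge set of a list -/
noncomputable def Phi (l : List (Fin 7 × Fin 7)) : Finset (Sym2 (Fin 7)) :=
  (l.map (fun p => s(p.1, p.2))).toFinset

lemma gr_eq (l : List (Fin 7 × Fin 7)) :
    fromEdgeSet ((Phi l : Finset (Sym2 (Fin 7))) : Set (Sym2 (Fin 7))) = gr l := by
  unfold gr Phi
  congr 1
  ext z
  simp only [Finset.mem_coe, List.mem_toFinset, Set.mem_setOf_eq]

lemma G0_edgeSet : G0.edgeSet = {z | z ∈ eds.map (fun p => s(p.1, p.2))} := by
  unfold G0 gr
  rw [edgeSet_fromEdgeSet, sdiff_eq_left, Set.disjoint_left]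
  intro z hz hd
  rw [Set.mem_setOf_eq, List.mem_map] at hz
  obtain ⟨p, hp, rfl⟩ := hz
  have := eds_ne p hp
  simp at hd
  exact this hd

lemma count (Q : Finset (Sym2 (Fin 7)) → Prop) (q : List (Fin 7 × Fin 7) → Bool)
    (h : ∀ l, l.Sublist eds → (Q (Phi l) ↔ q l = true)) :
    (Finset.univ.filter (fun F : Finset (Sym2 (Fin 7)) =>
      (F : Set (Sym2 (Fin 7))) ⊆ G0.edgeSet ∧ Q F)).card = (eds.sublists.filter q).length := by
  have hinj : ∀ l, l.Sublist eds → l = eds.filter (fun p => s(p.1, p.2) ∈ Phi l) := by
    intro l hl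
    conv_lhs => rw [sublist_eq_filter hl eds_nodup']
    apply List.filter_congr
    intro p hp
    have : p ∈ l ↔ s(p.1, p.2) ∈ Phi l := by
      unfold Phi
      rw [List.mem_toFinset, List.mem_map]
      constructor
      · intro hpl; exact ⟨p, hpl, rfl⟩
      · rintro ⟨p', hp', he⟩
        have := List.inj_on_of_nodup_map eds_nodup (hl.subset hp') hp he
        rwa [← this]
    simp [this]
  have hset : (Finset.univ.filter (fun F : Finset (Sym2 (Fin 7)) =>
      (F : Set (Sym2 (Fin 7))) ⊆ G0.edgeSet ∧ Q F))
      = ((eds.sublists.filter q).map Phi).toFinset := by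
    ext F
    simp only [Finset.mem_filter, Finset.mem_univ, true_and, List.mem_toFinset, List.mem_map,
      List.mem_filter, List.mem_sublists]
    constructor
    · rintro ⟨h1, h2⟩
      refine ⟨eds.filter (fun p => s(p.1, p.2) ∈ F), ⟨List.filter_sublist, ?_⟩, ?_⟩
      · rw [← h _ List.filter_sublist]
        convert h2
        ext z
        unfold Phi
        simp only [List.mem_toFinset, List.mem_map, List.mem_filter, decide_eq_true_eq]
        constructor
        · rintro ⟨p, ⟨_, hp⟩, rfl⟩; exact hp
        · intro hz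
          have := h1 (Finset.mem_coe.mpr hz)
          rw [G0_edgeSet, Set.mem_setOf_eq, List.mem_map] at this
          obtain ⟨p, hp, rfl⟩ := this
          exact ⟨p, ⟨hp, hz⟩, rfl⟩
      · ext z
        unfold Phi
        simp only [List.mem_toFinset, List.mem_map, List.mem_filter, decide_eq_true_eq]
        constructor
        · rintro ⟨p, ⟨_, hp⟩, rfl⟩; exact hp
        · intro hz
          have := h1 (Finset.mem_coe.mpr hz)
          rw [G0_edgeSet, Set.mem_setOf_eq, List.mem_map] at this
          obtain ⟨p, hp, rfl⟩ := this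
          exact ⟨p, ⟨hp, hz⟩, rfl⟩
    · rintro ⟨l, ⟨h1, h2⟩, rfl⟩
      refine ⟨?_, (h l h1).mpr h2⟩
      intro z hz
      rw [G0_edgeSet, Set.mem_setOf_eq]
      unfold Phi at hz
      rw [Finset.mem_coe, List.mem_toFinset] at hz
      exact (h1.map _).subset hz
  rw [hset, List.toFinset_card_of_nodup, List.length_map]
  apply List.Nodup.map_on
  · intro l hl l' hl' he
    rw [List.mem_filter, List.mem_sublists] at hl hl'
    rw [hinj l hl.1, hinj l' hl'.1, he]
  · exact (List.nodup_sublists.mpr eds_nodup').filter _

lemma forests_card (k : ℕ) : (forests G0 k).card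
    = (eds.sublists.filter (fun l => acyc l && ((lab l).dedup.length == k))).length := by
  have h := count (fun F => (fromEdgeSet (F : Set (Sym2 (Fin 7)))).IsAcyclic ∧
      Nat.card (fromEdgeSet (F : Set (Sym2 (Fin 7)))).ConnectedComponent = k)
      (fun l => acyc l && ((lab l).dedup.length == k)) (by
      intro l hl
      rw [gr_eq, acyc_iff l ((hl.map _).nodup eds_nodup) (fun p hp => eds_ne p (hl.subset hp)),
        comps_eq]
      simp)
  rw [← h]
  unfold forests
  congr!

lemma forests_filter_card (k : ℕ) :
    ((forests G0 k).filter (fun F => s((3 : Fin 7), (5 : Fin 7)) ∈ F)).card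
    = (eds.sublists.filter (fun l => decide (((3 : Fin 7), (5 : Fin 7)) ∈ l) &&
      (acyc l && ((lab l).dedup.length == k)))).length := by
  have h := count (fun F => s((3 : Fin 7), (5 : Fin 7)) ∈ F ∧
      (fromEdgeSet (F : Set (Sym2 (Fin 7)))).IsAcyclic ∧
      Nat.card (fromEdgeSet (F : Set (Sym2 (Fin 7)))).ConnectedComponent = k)
      (fun l => decide (((3 : Fin 7), (5 : Fin 7)) ∈ l) &&
      (acyc l && ((lab l).dedup.length == k))) (by
      intro l hl
      rw [gr_eq, acyc_iff l ((hl.map _).nodup eds_nodup) (fun p hp => eds_ne p (hl.subset hp)),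
        comps_eq]
      have : s((3 : Fin 7), (5 : Fin 7)) ∈ Phi l ↔ ((3 : Fin 7), (5 : Fin 7)) ∈ l := by
        unfold Phi
        rw [List.mem_toFinset, List.mem_map]
        constructor
        · rintro ⟨p', hp', he⟩
          have h35 : ((3 : Fin 7), (5 : Fin 7)) ∈ eds := by decide
          have := List.inj_on_of_nodup_map eds_nodup (hl.subset hp') h35 he
          rwa [← this]
        · intro hpl; exact ⟨_, hpl, rfl⟩
      rw [this]
      simp)
  rw [← h]
  unfold forests
  congr 1
  ext F
  simp only [Finset.mem_filter, Finset.mem_univ, true_and]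
  tauto

set_option maxRecDepth 100000 in
lemma c1 : (eds.sublists.filter (fun l => acyc l && ((lab l).dedup.length == 1))).length = 68 := by
  decide +kernel

set_option maxRecDepth 100000 in
lemma c2 : (eds.sublists.filter (fun l => acyc l && ((lab l).dedup.length == 2))).length = 168 := by
  decide +kernel

set_option maxRecDepth 100000 in
lemma c3 : (eds.sublists.filter (fun l => decide (((3 : Fin 7), (5 : Fin 7)) ∈ l) &&
      (acyc l && ((lab l).dedup.length == 1)))).length = 24 := by
  decide +kernel

set_option maxRecDepth 100000 in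
lemma c4 : (eds.sublists.filter (fun l => decide (((3 : Fin 7), (5 : Fin 7)) ∈ l) &&
      (acyc l && ((lab l).dedup.length == 2)))).length = 60 := by
  decide +kernel

lemma UF_eq (k : ℕ) : UF G0 k s((3 : Fin 7), (5 : Fin 7)) =
    ((eds.sublists.filter (fun l => decide (((3 : Fin 7), (5 : Fin 7)) ∈ l) &&
      (acyc l && ((lab l).dedup.length == k)))).length : ℚ)
    / ((eds.sublists.filter (fun l => acyc l && ((lab l).dedup.length == k))).length : ℚ) := by
  rw [← forests_filter_card, ← forests_card]
  unfold UF
  congr!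

lemma UF_one : UF G0 1 s((3 : Fin 7), (5 : Fin 7)) = 6 / 17 := by
  rw [UF_eq, c1, c3]
  norm_num

lemma UF_two : UF G0 2 s((3 : Fin 7), (5 : Fin 7)) = 5 / 14 := by
  rw [UF_eq, c2, c4]
  norm_num

lemma G0_connected : G0.Connected := by
  rw [connected_iff]
  refine ⟨fun x y => ?_, ⟨0⟩⟩
  unfold G0
  rw [reach, ← getD_lab, ← getD_lab]
  revert x y
  decide

lemma G0_mem : s((3 : Fin 7), (5 : Fin 7)) ∈ G0.edgeSet := by
  rw [G0_edgeSet]
  decide

lemma G0_ncard : G0.edgeSet.ncard = 10 := by
  have : G0.edgeSet = ((eds.map (fun p => s(p.1, p.2))).toFinset : Set (Sym2 (Fin 7))) := by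
    rw [G0_edgeSet]
    ext z
    simp only [Set.mem_setOf_eq, Finset.mem_coe, List.mem_toFinset]
  rw [this, Set.ncard_coe_finset, List.toFinset_card_of_nodup eds_nodup]
  rfl

end Pool.Agent.H36.ForestCount
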