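import Mathlib

/-!
# Minimum spanning trees: definitions and the cut/cycle property
-/

open SimpleGraph

namespace Pool.Agent.H36.MST

/-- `T` is a spanning tree of `G`. -/
def IsSpanningTree {V : Type} (G T : SimpleGraph V) : Prop := T ≤ G ∧ T.IsTree

/-- `T` is splittable into two equal halves: some edge `ab` of `T` has the property that, in
`T - ab`, the components of `a` and of `b` both have `N/2` vertices (`N` the number of
vertices). -/
def Splittable {V : Type} (T : SimpleGraph V) : Prop :=
  ∃ a b, T.Adj a b ∧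
    2 * Nat.card {x // (T.deleteEdges {s(a, b)}).Reachable a x} = Nat.card V ∧
    2 * Nat.card {x // (T.deleteEdges {s(a, b)}).Reachable b x} = Nat.card V

open scoped Classical in
/-- The total weight of `T`, for the edge weights `w`. -/
noncomputable def weight {V : Type} [Fintype V] (G : SimpleGraph V) (w : G.edgeSet → ℝ)
    (T : SimpleGraph V) : ℝ :=
  ∑ e : G.edgeSet, if e.1 ∈ T.edgeSet then w e else 0

/-- `T` is a spanning tree of `G` of minimum total weight. -/
def IsMST {V : Type} [Fintype V] (G : SimpleGraph V) (w : G.edgeSet → ℝ)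
    (T : SimpleGraph V) : Prop :=
  IsSpanningTree G T ∧ ∀ T', IsSpanningTree G T' → weight G w T ≤ weight G w T'

/-- Exchange: adding a non-edge `ab` to a tree, one can remove some edge of the tree which is
not in a given subgraph that does not connect `a` and `b`. -/
lemma exchange {V : Type} [Fintype V] (T H0 : SimpleGraph V) (hT : T.IsTree)
    {a b : V} (hne : a ≠ b) (hab : ¬ T.Adj a b) (hr : ¬ H0.Reachable a b) :
    ∃ c d, T.Adj c d ∧ ¬ H0.Adj c d ∧ ((T ⊔ edge a b).deleteEdges {s(c, d)}).IsTree := by
  classical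
  obtain ⟨p, hp⟩ := hT.connected.exists_isPath b a
  have h1 : ∃ e ∈ p.edges, e ∉ H0.edgeSet := by
    by_contra hcon
    push_neg at hcon
    exact hr ⟨(p.transfer H0 hcon).reverse⟩
  obtain ⟨e, he, heH⟩ := h1
  induction e with | h c d
  have hcd : T.Adj c d := p.adj_of_mem_edges he
  refine ⟨c, d, hcd, fun h => heH h, ?_⟩
  set H := T ⊔ edge a b with hH
  have hTH : T ≤ H := le_sup_left
  have hHab : H.Adj a b := by
    rw [hH, sup_adj, edge_adj]
    exact Or.inr ⟨Or.inl ⟨rfl, rfl⟩, hne⟩
  have hp2 : (p.mapLe hTH).IsPath := hp.mapLe hTH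
  have hcyc : (Walk.cons hHab (p.mapLe hTH)).IsCycle := by
    apply Path.cons_isCycle ⟨p.mapLe hTH, hp2⟩
    intro h
    simp only [Walk.edges_mapLe_eq_edges] at h
    exact hab (p.adj_of_mem_edges h)
  have hnb : ¬ H.IsBridge s(c, d) := by
    intro hb
    apply hb.notMem_edges_of_isCycle hcyc
    simp only [Walk.edges_cons, List.mem_cons, Walk.edges_mapLe_eq_edges]
    exact Or.inr he
  have hHc : H.Connected := hT.connected.mono hTH
  rw [isTree_iff_connected_and_card]
  refine ⟨hHc.connected_delete_edge_of_not_isBridge hnb, ?_⟩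
  have hTc := (isTree_iff_connected_and_card.mp hT).2
  rw [← hTc]
  congr 1
  have e1 : H.edgeSet = insert s(a, b) T.edgeSet := by
    rw [hH, edgeSet_sup]
    ext z
    simp only [Set.mem_union, Set.mem_insert_iff]
    induction z with | h x y
    rw [mem_edgeSet, mem_edgeSet, edge_adj, Sym2.eq_iff]
    constructor
    · rintro (h | h)
      · exact Or.inr h
      · left; tauto
    · rintro (h | h)
      · right
        rcases h with ⟨rfl, rfl⟩ | ⟨rfl, rfl⟩
        · exact ⟨Or.inl ⟨rfl, rfl⟩, hne⟩
        · exact ⟨Or.inr ⟨rfl, rfl⟩, hne.symm⟩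
      · exact Or.inl h
  rw [edgeSet_deleteEdges, e1]
  have h2 : s(a, b) ∉ T.edgeSet := hab
  have h3 : s(c, d) ∈ insert s(a, b) T.edgeSet := Set.mem_insert_of_mem _ hcd
  rw [Nat.card_coe_set_eq, Nat.card_coe_set_eq, Set.ncard_diff_singleton_of_mem h3,
    Set.ncard_insert_of_notMem h2 (Set.toFinite _)]
  rfl

/-- The cut/cycle property: for injective weights, an edge `e = ab` of `G` belongs to the minimum
spanning tree `T` iff the lighter edges of `T` do not connect `a` and `b`. -/
lemma mst_mem_iff {V : Type} [Fintype V] (G T : SimpleGraph V) (w : G.edgeSet → ℝ)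
    (hw : Function.Injective w) (hT : IsMST G w T) {a b : V} (hab : G.Adj a b)
    (H0 : SimpleGraph V) (hH0 : H0 ≤ T)
    (hlt : ∀ f : G.edgeSet, f.1 ∈ T.edgeSet → (f.1 ∈ H0.edgeSet ↔ w f < w ⟨s(a, b), hab⟩)) :
    T.Adj a b ↔ ¬ H0.Reachable a b := by
  classical
  constructor
  · intro h hr
    have hb := isAcyclic_iff_forall_adj_isBridge.mp hT.1.2.isAcyclic h
    rw [isBridge_iff] at hb
    apply hb
    refine hr.mono ?_
    intro x y hxy
    rw [deleteEdges_adj]
    refine ⟨hH0 hxy, ?_⟩
    intro he
    rw [Set.mem_singleton_iff] at he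
    have h0 : s(x, y) ∈ H0.edgeSet := hxy
    rw [he] at h0
    exact lt_irrefl _ ((hlt ⟨s(a, b), hab⟩ h).mp h0)
  · intro hr
    by_contra h
    obtain ⟨c, d, hcd, hcd0, htree⟩ := exchange T H0 hT.1.2 hab.ne h hr
    set T' := (T ⊔ edge a b).deleteEdges {s(c, d)} with hT'
    have hle : T' ≤ G := by
      refine (deleteEdges_le _).trans (sup_le hT.1.1 ?_)
      intro x y hxy
      rw [edge_adj] at hxy
      rcases hxy.1 with ⟨rfl, rfl⟩ | ⟨rfl, rfl⟩
      · exact hab
      · exact hab.symm
    have hmin := hT.2 T' ⟨hle, htree⟩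
    let e0 : G.edgeSet := ⟨s(a, b), hab⟩
    let f0 : G.edgeSet := ⟨s(c, d), hT.1.1 hcd⟩
    have hne : e0 ≠ f0 := by
      intro h1
      have h2 : s(a, b) = s(c, d) := congrArg Subtype.val h1
      exact h ((mem_edgeSet T).mp (h2 ▸ hcd))
    have hlt2 : w e0 < w f0 := by
      have h1 : ¬ w f0 < w e0 := by
        intro h2
        exact hcd0 ((hlt f0 hcd).mpr h2)
      rcases lt_or_eq_of_le (not_lt.mp h1) with h2 | h2
      · exact h2
      · exact absurd (hw h2) hne
    have hmem : ∀ e : G.edgeSet, e.1 ∈ T'.edgeSet ↔ ((e.1 ∈ T.edgeSet ∨ e = e0) ∧ e ≠ f0) := by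
      intro e
      rw [hT', edgeSet_deleteEdges, Set.mem_diff, Set.mem_singleton_iff, edgeSet_sup, Set.mem_union]
      have h1 : e.1 ∈ (edge a b).edgeSet ↔ e = e0 := by
        constructor
        · intro h2
          apply Subtype.ext
          obtain ⟨z, hz⟩ := e
          induction z with | h x y
          rw [mem_edgeSet, edge_adj] at h2
          rcases h2.1 with ⟨rfl, rfl⟩ | ⟨rfl, rfl⟩
          · rfl
          · exact Sym2.eq_swap
        · rintro rfl
          change (edge a b).Adj a b
          rw [edge_adj]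
          exact ⟨Or.inl ⟨rfl, rfl⟩, hab.ne⟩
      have h2 : e.1 = s(c, d) ↔ e = f0 := by
        constructor
        · intro h3; exact Subtype.ext h3
        · rintro rfl; rfl
      rw [h1, h2]
    have hsum : weight G w T' = weight G w T + w e0 - w f0 := by
      unfold weight
      have hpt : ∀ e : G.edgeSet, (if e.1 ∈ T'.edgeSet then w e else 0)
          = (if e.1 ∈ T.edgeSet then w e else 0) + (if e = e0 then w e0 else 0)
            - (if e = f0 then w f0 else 0) := by
        intro e
        by_cases h1 : e = e0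
        · subst h1
          have h2 : ¬ (e0.1 ∈ T.edgeSet) := h
          rw [if_pos ((hmem e0).mpr ⟨Or.inr rfl, hne⟩), if_neg h2, if_pos rfl, if_neg hne]
          ring
        · by_cases h2 : e = f0
          · subst h2
            have h3 : f0.1 ∈ T.edgeSet := hcd
            rw [if_neg (fun h4 => ((hmem f0).mp h4).2 rfl), if_pos h3, if_neg h1, if_pos rfl]
            ring
          · rw [if_neg h1, if_neg h2]
            have : e.1 ∈ T'.edgeSet ↔ e.1 ∈ T.edgeSet := by
              rw [hmem]; tauto
            simp only [this]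
            ring
      have key : ∑ e : G.edgeSet, (if e.1 ∈ T'.edgeSet then w e else 0)
          = ∑ e : G.edgeSet, ((if e.1 ∈ T.edgeSet then w e else 0) + (if e = e0 then w e0 else 0)
            - (if e = f0 then w f0 else 0)) := Finset.sum_congr rfl (fun e _ => hpt e)
      rw [Finset.sum_sub_distrib, Finset.sum_add_distrib,
        Finset.sum_ite_eq' Finset.univ e0, Finset.sum_ite_eq' Finset.univ f0] at key
      simp only [Finset.mem_univ, if_true] at key
      convert key using 1
      congr!
    rw [hsum] at hmin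
    linarith

lemma exists_mst {V : Type} [Fintype V] (G : SimpleGraph V) (hG : G.Connected)
    (w : G.edgeSet → ℝ) : ∃ T, IsMST G w T := by
  classical
  obtain ⟨T0, h0, h1⟩ := hG.exists_isTree_le
  have hfin : (Set.univ : Set (SimpleGraph V)).Finite := Set.toFinite _
  have hs : {T : SimpleGraph V | IsSpanningTree G T}.Finite := Set.toFinite _
  obtain ⟨T, hT, hmin⟩ := Set.exists_min_image {T : SimpleGraph V | IsSpanningTree G T}
    (weight G w) hs ⟨T0, h0, h1⟩
  exact ⟨T, hT, fun T' hT' => hmin T' hT'⟩

end Pool.Agent.H36.MST
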