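import Mathlib

/-!
# Orderings of a finite set and the Kruskal recursion
-/

open Finset

namespace Pool.Agent.H36.Ords

variable {α : Type} [DecidableEq α]

/-- lists of length `k` without repetitions with entries in `R` -/
def ords : ℕ → Finset α → Finset (List α)
  | 0, _ => {[]}
  | k + 1, R => R.biUnion (fun x => (ords k (R.erase x)).image (x :: ·))

lemma mem_ords : ∀ (k : ℕ) (R : Finset α) (l : List α),
    l ∈ ords k R ↔ l.length = k ∧ l.Nodup ∧ ∀ x ∈ l, x ∈ R
  | 0, R, l => by
    simp only [ords, mem_singleton, List.length_eq_zero_iff]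
    constructor
    · rintro rfl; simp
    · exact fun h => h.1
  | k + 1, R, l => by
    simp only [ords, mem_biUnion, mem_image]
    constructor
    · rintro ⟨x, hx, l', hl', rfl⟩
      rw [mem_ords k] at hl'
      refine ⟨by simp [hl'.1], ?_, ?_⟩
      · rw [List.nodup_cons]
        exact ⟨fun h => (Finset.mem_erase.mp (hl'.2.2 x h)).1 rfl, hl'.2.1⟩
      · intro y hy
        rw [List.mem_cons] at hy
        rcases hy with rfl | hy
        · exact hx
        · exact (Finset.mem_erase.mp (hl'.2.2 y hy)).2
    · rintro ⟨h1, h2, h3⟩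
      match l, h1, h2, h3 with
      | x :: l', h1, h2, h3 =>
        rw [List.nodup_cons] at h2
        refine ⟨x, h3 x List.mem_cons_self, l', ?_, rfl⟩
        rw [mem_ords k]
        refine ⟨by simpa using h1, h2.2, fun y hy => ?_⟩
        rw [Finset.mem_erase]
        exact ⟨fun h => h2.1 (h ▸ hy), h3 y (List.mem_cons_of_mem _ hy)⟩

lemma sum_ords_succ (k : ℕ) (R : Finset α) (f : List α → ℚ) :
    ∑ l ∈ ords (k + 1) R, f l = ∑ x ∈ R, ∑ l ∈ ords k (R.erase x), f (x :: l) := by
  rw [show ords (k + 1) R = R.biUnion (fun x => (ords k (R.erase x)).image (x :: ·)) from rfl,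
    Finset.sum_biUnion]
  · refine Finset.sum_congr rfl fun x _ => ?_
    rw [Finset.sum_image]
    intro a _ b _ h
    exact List.tail_eq_of_cons_eq h
  · intro x _ y _ hxy
    rw [Function.onFun, Finset.disjoint_left]
    intro l hl hl'
    rw [Finset.mem_image] at hl hl'
    obtain ⟨a, _, rfl⟩ := hl
    obtain ⟨b, _, h⟩ := hl'
    exact hxy (List.head_eq_of_cons_eq h).symm

/-- the generic Kruskal process on natural number states -/
def kr (cross : ℕ → Finset α) (ins : ℕ → α → ℕ) : ℕ → List α → ℕ
  | m, [] => m
  | m, x :: l => if x ∈ cross m then kr cross ins (ins m x) l else kr cross ins m l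

/-- The Kruskal recursion: averaging over all orderings. -/
theorem kruskal_sum (cross : ℕ → Finset α) (ins : ℕ → α → ℕ) (cls : ℕ → Prop)
    (hcls : ∀ m x, cls m → x ∈ cross m → cls (ins m x))
    (hcross : ∀ m x, cls m → x ∈ cross m → cross (ins m x) ⊆ (cross m).erase x)
    (g W : ℕ → ℚ)
    (hW : ∀ m, cls m → ((cross m).card : ℚ) * W m = ∑ x ∈ cross m, W (ins m x))
    (hg : ∀ m, cls m → cross m = ∅ → W m = g m) :
    ∀ (k : ℕ) (R : Finset α) (m : ℕ), cls m → R.card = k → cross m ⊆ R →
      ∑ l ∈ ords k R, g (kr cross ins m l) = (k.factorial : ℚ) * W m := by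
  intro k
  induction k with
  | zero =>
    intro R m hm hR hc
    rw [Finset.card_eq_zero] at hR
    subst hR
    have : cross m = ∅ := Finset.subset_empty.mp hc
    simp [ords, kr, hg m hm this]
  | succ k ih =>
    intro R m hm hR hc
    rw [sum_ords_succ, ← Finset.sum_sdiff hc]
    have h1 : ∑ x ∈ R \ cross m, ∑ l ∈ ords k (R.erase x), g (kr cross ins m (x :: l))
        = ∑ x ∈ R \ cross m, (k.factorial : ℚ) * W m := by
      refine Finset.sum_congr rfl fun x hx => ?_
      rw [Finset.mem_sdiff] at hx
      have h2 : ∀ l, kr cross ins m (x :: l) = kr cross ins m l := by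
        intro l
        simp [kr, hx.2]
      simp only [h2]
      apply ih (R.erase x) m hm
      · rw [Finset.card_erase_of_mem hx.1, hR]; rfl
      · intro y hy
        rw [Finset.mem_erase]
        exact ⟨fun h => hx.2 (h ▸ hy), hc hy⟩
    have h3 : ∑ x ∈ cross m, ∑ l ∈ ords k (R.erase x), g (kr cross ins m (x :: l))
        = ∑ x ∈ cross m, (k.factorial : ℚ) * W (ins m x) := by
      refine Finset.sum_congr rfl fun x hx => ?_
      have h2 : ∀ l, kr cross ins m (x :: l) = kr cross ins (ins m x) l := by
        intro l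
        simp [kr, hx]
      simp only [h2]
      apply ih (R.erase x) (ins m x) (hcls m x hm hx)
      · rw [Finset.card_erase_of_mem (hc hx), hR]; rfl
      · intro y hy
        have := hcross m x hm hx hy
        rw [Finset.mem_erase] at this ⊢
        exact ⟨this.1, hc this.2⟩
    rw [h1, h3, ← Finset.mul_sum (cross m), ← hW m hm, Finset.sum_const, nsmul_eq_mul,
      Finset.card_sdiff_of_subset hc, hR, Nat.factorial_succ]
    have h4 : (cross m).card ≤ k + 1 := hR ▸ Finset.card_le_card hc
    push_cast [h4]
    ring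

end Pool.Agent.H36.Ords
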