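import Mathlib
import Pool.Agent.H36.Ords
import Pool.Agent.H36.MST

/-!
# The grid graph `P_2 □ P_4`: bit masks for its subgraphs and the Kruskal table
-/

open SimpleGraph

namespace Pool.Agent.H36.Grid24

abbrev V := Fin 2 × Fin 4

/-- the grid graph -/
def G : SimpleGraph V := pathGraph 2 □ pathGraph 4

/-- its ten edges -/
def ed : Fin 10 → V × V := ![((0, 0), (0, 1)), ((0, 1), (0, 2)), ((0, 2), (0, 3)),
  ((1, 0), (1, 1)), ((1, 1), (1, 2)), ((1, 2), (1, 3)),
  ((0, 0), (1, 0)), ((0, 1), (1, 1)), ((0, 2), (1, 2)), ((0, 3), (1, 3))]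

lemma G_adj (p q : V) : G.Adj p q ↔ ∃ i, (p = (ed i).1 ∧ q = (ed i).2) ∨
    (p = (ed i).2 ∧ q = (ed i).1) := by
  unfold G
  rw [boxProd_adj, pathGraph_adj, pathGraph_adj]
  revert p q
  decide

lemma ed_adj (i : Fin 10) : G.Adj (ed i).1 (ed i).2 := (G_adj _ _).mpr ⟨i, Or.inl ⟨rfl, rfl⟩⟩

lemma ed_ne (i : Fin 10) : (ed i).1 ≠ (ed i).2 := by
  revert i
  decide

lemma ed_inj' : ∀ i j : Fin 10, s((ed i).1, (ed i).2) = s((ed j).1, (ed j).2) → i = j := by
  decide

/-- the edges of `G`, indexed by `Fin 10` -/
noncomputable def eps : Fin 10 ≃ G.edgeSet :=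
  Equiv.ofBijective (fun i => ⟨s((ed i).1, (ed i).2), ed_adj i⟩) (by
    constructor
    · intro i j h
      exact ed_inj' i j (congrArg Subtype.val h)
    · rintro ⟨z, hz⟩
      induction z with | h p q
      obtain ⟨i, h⟩ := (G_adj p q).mp hz
      refine ⟨i, Subtype.ext ?_⟩
      rcases h with ⟨rfl, rfl⟩ | ⟨rfl, rfl⟩
      · rfl
      · exact Sym2.eq_swap)

lemma eps_val (i : Fin 10) : (eps i).1 = s((ed i).1, (ed i).2) := rfl

/-! ### graphs given by lists of edges -/

/-- the graph of a list of pairs -/
def gr (l : List (V × V)) : SimpleGraph V :=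
  fromEdgeSet {z | z ∈ l.map (fun p => s(p.1, p.2))}

/-- component labels (as a function) -/
def labF : List (V × V) → V → V
  | [] => id
  | e :: l => fun x => if labF l x = labF l e.1 then labF l e.2 else labF l x

lemma gr_cons (e : V × V) (l : List (V × V)) :
    gr (e :: l) = gr l ⊔ edge e.1 e.2 := by
  unfold gr edge
  rw [← fromEdgeSet_union]
  congr 1
  ext z
  simp only [List.map_cons, List.mem_cons, Set.mem_setOf_eq, Set.mem_union, Set.mem_singleton_iff]
  tauto

lemma gr_le_cons (e : V × V) (l : List (V × V)) : gr l ≤ gr (e :: l) := by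
  rw [gr_cons]; exact le_sup_left

lemma reach (l : List (V × V)) : ∀ x y, (gr l).Reachable x y ↔ labF l x = labF l y := by
  induction l with
  | nil =>
    intro x y
    have : gr [] = ⊥ := by ext a b; simp [gr]
    rw [this]
    simp [labF]
  | cons e l ih =>
    intro x y
    constructor
    · have hadj : ∀ a b, (gr (e :: l)).Adj a b → labF (e :: l) a = labF (e :: l) b := by
        intro a b hab
        rw [gr_cons, sup_adj] at hab
        rcases hab with hab | hab
        · have := (ih a b).mp hab.reachable
          simp only [labF, this]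
        · rw [edge_adj] at hab
          simp only [labF]
          rcases hab.1 with ⟨rfl, rfl⟩ | ⟨rfl, rfl⟩
          · simp only [if_true]
            split_ifs <;> rfl
          · simp only [if_true]
            split_ifs <;> rfl
      rintro ⟨w⟩
      induction w with
      | nil => rfl
      | cons h _ ih2 => exact (hadj _ _ h).trans ih2
    · intro h
      have hle := gr_le_cons e l
      have he : (gr (e :: l)).Reachable e.1 e.2 := by
        by_cases h12 : e.1 = e.2
        · rw [h12]
        · apply SimpleGraph.Adj.reachable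
          rw [gr_cons, sup_adj, edge_adj]
          right
          exact ⟨Or.inl ⟨rfl, rfl⟩, h12⟩
      simp only [labF] at h
      split_ifs at h with h1 h2 h2
      · exact ((ih x y).mpr (h1.trans h2.symm)).mono hle
      · have a1 := ((ih x e.1).mpr h1).mono hle
        have a2 := ((ih e.2 y).mpr h).mono hle
        exact a1.trans (he.trans a2)
      · have a1 := ((ih x e.2).mpr h).mono hle
        have a2 := ((ih e.1 y).mpr h2.symm).mono hle
        exact a1.trans (he.symm.trans a2)
      · exact ((ih x y).mpr h).mono hle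

/-- vertex codes -/
def cd (p : V) : ℕ := 4 * p.1.val + p.2.val

lemma cd_inj : ∀ p q : V, cd p = cd q ↔ p = q := by decide

/-- all vertices in the order of their codes -/
def allV : List V := [(0, 0), (0, 1), (0, 2), (0, 3), (1, 0), (1, 1), (1, 2), (1, 3)]

lemma allV_getD (f : V → ℕ) (p : V) : (allV.map f).getD (cd p) 0 = f p := by
  obtain ⟨a, b⟩ := p
  fin_cases a <;> fin_cases b <;> rfl

/-- component labels (as a list of codes) -/
def labN : List (ℕ × ℕ) → List ℕ
  | [] => [0, 1, 2, 3, 4, 5, 6, 7]
  | e :: l => (labN l).map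
      (fun x => if x = (labN l).getD e.1 0 then (labN l).getD e.2 0 else x)

lemma labN_eq : ∀ l : List (V × V),
    labN (l.map (fun p => (cd p.1, cd p.2))) = allV.map (fun v => cd (labF l v))
  | [] => by decide
  | e :: l => by
    simp only [List.map_cons, labN]
    rw [labN_eq l, allV_getD, allV_getD, List.map_map]
    apply List.map_congr_left
    intro v _
    simp only [Function.comp, labF]
    by_cases h : labF l v = labF l e.1
    · rw [if_pos h, if_pos (by rw [h])]
    · rw [if_neg h, if_neg (by rwa [cd_inj])]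

/-! ### bit masks -/

/-- the code pairs of the edges -/
def edN (i : Fin 10) : ℕ × ℕ :=
  [(0, 1), (1, 2), (2, 3), (4, 5), (5, 6), (6, 7), (0, 4), (1, 5), (2, 6), (3, 7)].getD i.val (0, 0)

lemma edN_eq : ∀ i : Fin 10, edN i = (cd (ed i).1, cd (ed i).2) := by decide

/-- the indices of the edges in the mask `m` -/
def el (m : ℕ) : List (Fin 10) := (List.finRange 10).filter (fun i => m.testBit i.val)

/-- the subgraph of the mask `m` -/
def gm (m : ℕ) : SimpleGraph V := gr ((el m).map ed)

lemma mem_el (m : ℕ) (i : Fin 10) : i ∈ el m ↔ m.testBit i.val = true := by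
  simp [el]

lemma gr_map_adj (l : List (Fin 10)) (p q : V) : (gr (l.map ed)).Adj p q ↔
    ∃ i ∈ l, (p = (ed i).1 ∧ q = (ed i).2) ∨ (p = (ed i).2 ∧ q = (ed i).1) := by
  unfold gr
  rw [fromEdgeSet_adj]
  simp only [Set.mem_setOf_eq, List.mem_map]
  constructor
  · rintro ⟨⟨e, ⟨i, hi, rfl⟩, h2⟩, _⟩
    refine ⟨i, hi, ?_⟩
    rw [Sym2.eq_iff] at h2
    tauto
  · rintro ⟨i, hi, h⟩
    refine ⟨⟨ed i, ⟨i, hi, rfl⟩, ?_⟩, ?_⟩
    · rw [Sym2.eq_iff]; tauto
    · rcases h with ⟨rfl, rfl⟩ | ⟨rfl, rfl⟩
      · exact ed_ne i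
      · exact (ed_ne i).symm

lemma gr_map_mem (l : List (Fin 10)) (i : Fin 10) :
    (eps i).1 ∈ (gr (l.map ed)).edgeSet ↔ i ∈ l := by
  rw [eps_val, mem_edgeSet, gr_map_adj]
  constructor
  · rintro ⟨j, hj, h⟩
    have : i = j := by
      apply ed_inj'
      rw [Sym2.eq_iff]
      tauto
    exact this ▸ hj
  · intro h
    exact ⟨i, h, Or.inl ⟨rfl, rfl⟩⟩

lemma gm_mem (m : ℕ) (i : Fin 10) : (eps i).1 ∈ (gm m).edgeSet ↔ m.testBit i.val = true := by
  unfold gm
  rw [gr_map_mem, mem_el]

lemma gr_le (l : List (Fin 10)) : gr (l.map ed) ≤ G := by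
  intro p q h
  rw [gr_map_adj] at h
  obtain ⟨i, _, h⟩ := h
  exact (G_adj p q).mpr ⟨i, h⟩

lemma gm_le (m : ℕ) : gm m ≤ G := gr_le _

/-- two subgraphs of `G` with the same edges are equal -/
lemma eq_of_mem {T T' : SimpleGraph V} (h : T ≤ G) (h' : T' ≤ G)
    (he : ∀ i, (eps i).1 ∈ T.edgeSet ↔ (eps i).1 ∈ T'.edgeSet) : T = T' := by
  have key : ∀ T T' : SimpleGraph V, T ≤ G → (∀ i, (eps i).1 ∈ T.edgeSet → (eps i).1 ∈ T'.edgeSet)
      → T ≤ T' := by
    intro T T' h he p q hpq
    obtain ⟨i, hi⟩ := eps.surjective ⟨s(p, q), h hpq⟩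
    have h1 : (eps i).1 = s(p, q) := congrArg Subtype.val hi
    have h2 : (eps i).1 ∈ T.edgeSet := by rw [h1]; exact hpq
    have h3 := he i h2
    rw [h1] at h3
    exact h3
  exact le_antisymm (key T T' h (fun i => (he i).mp)) (key T' T h' (fun i => (he i).mpr))

/-- labels of the mask `m` -/
def L (l : List (Fin 10)) : List ℕ := labN (l.map edN)

lemma L_eq (l : List (Fin 10)) : L l = allV.map (fun v => cd (labF (l.map ed) v)) := by
  unfold L
  rw [← labN_eq, List.map_map]
  congr 1
  apply List.map_congr_left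
  intro i _
  exact edN_eq i

lemma L_getD (l : List (Fin 10)) (v : V) : (L l).getD (cd v) 0 = cd (labF (l.map ed) v) := by
  rw [L_eq, allV_getD]

lemma reach_L (l : List (Fin 10)) (x y : V) :
    (gr (l.map ed)).Reachable x y ↔ (L l).getD (cd x) 0 = (L l).getD (cd y) 0 := by
  rw [reach, L_getD, L_getD, cd_inj]

/-- is the edge `i` between different components? -/
def crossb (l : List (Fin 10)) (i : Fin 10) : Bool :=
  (L l).getD (edN i).1 0 != (L l).getD (edN i).2 0

lemma crossb_iff (l : List (Fin 10)) (i : Fin 10) :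
    crossb l i = true ↔ ¬ (gr (l.map ed)).Reachable (ed i).1 (ed i).2 := by
  rw [reach_L, crossb, edN_eq]
  simp

/-- the edges of `G` between different components of `gm m` -/
def cross (m : ℕ) : Finset (Fin 10) := Finset.univ.filter (fun i => crossb (el m) i = true)

lemma mem_cross (m : ℕ) (i : Fin 10) :
    i ∈ cross m ↔ ¬ (gm m).Reachable (ed i).1 (ed i).2 := by
  unfold cross gm
  rw [Finset.mem_filter, crossb_iff]
  simp

/-- insert an edge -/
def ins (m : ℕ) (i : Fin 10) : ℕ := m ||| 2 ^ i.val

lemma testBit_ins (m : ℕ) (i j : Fin 10) :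
    (ins m i).testBit j.val = true ↔ (m.testBit j.val = true ∨ j = i) := by
  unfold ins
  rw [Nat.testBit_or, Nat.testBit_two_pow, Bool.or_eq_true, decide_eq_true_eq, Fin.ext_iff,
    eq_comm (a := i.val)]

lemma gm_le_ins (m : ℕ) (i : Fin 10) : gm m ≤ gm (ins m i) := by
  intro p q h
  unfold gm at h ⊢
  rw [gr_map_adj] at h ⊢
  obtain ⟨j, hj, h⟩ := h
  refine ⟨j, ?_, h⟩
  rw [mem_el] at hj ⊢
  rw [testBit_ins]
  exact Or.inl hj

lemma cross_ins (m : ℕ) (i : Fin 10) : cross (ins m i) ⊆ (cross m).erase i := by
  intro j hj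
  rw [mem_cross] at hj
  rw [Finset.mem_erase, mem_cross]
  refine ⟨?_, fun h => hj (h.mono (gm_le_ins m i))⟩
  rintro rfl
  apply hj
  apply SimpleGraph.Adj.reachable
  have := (gm_mem (ins m j) j).mpr ((testBit_ins m j j).mpr (Or.inr rfl))
  rw [eps_val, mem_edgeSet] at this
  exact this

lemma ins_lt (m : ℕ) (i : Fin 10) (h : m < 1024) : ins m i < 1024 := by
  unfold ins
  have h1 : (1024 : ℕ) = 2 ^ 10 := by norm_num
  rw [h1] at h ⊢
  exact Nat.or_lt_two_pow h (Nat.pow_lt_pow_right (by norm_num) i.isLt)

/-! ### splittability -/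

/-- the number of vertices with the same label as the vertex with code `a` -/
def cnt (M : List ℕ) (a : ℕ) : ℕ := (M.filter (fun x => x == M.getD a 0)).length

lemma cnt_eq (l : List (Fin 10)) (a : V) :
    Nat.card {x // (gr (l.map ed)).Reachable a x} = cnt (L l) (cd a) := by
  classical
  have h1 : Nat.card {x // (gr (l.map ed)).Reachable a x}
      = (Finset.univ.filter (fun x : V => (L l).getD (cd a) 0 = (L l).getD (cd x) 0)).card := by
    rw [Nat.card_eq_fintype_card, Fintype.card_subtype]
    congr 1
    ext x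
    simp only [Finset.mem_filter, Finset.mem_univ, true_and, reach_L]
  have h2 : (Finset.univ : Finset V) = allV.toFinset := by decide
  have h3 : allV.Nodup := by decide
  have h4 : (Finset.univ.filter (fun x : V => (L l).getD (cd a) 0 = (L l).getD (cd x) 0))
      = (allV.filter (fun x => decide ((L l).getD (cd a) 0 = (L l).getD (cd x) 0))).toFinset := by
    rw [h2]
    ext x
    simp
  rw [h1, h4, List.toFinset_card_of_nodup (h3.filter _)]
  unfold cnt
  conv_rhs => rw [L_eq, List.filter_map, List.length_map]
  congr 1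
  apply List.filter_congr
  intro x _
  simp only [Function.comp, allV_getD, L_getD]
  rw [Bool.eq_iff_iff]
  simp only [decide_eq_true_eq, beq_iff_eq]
  exact eq_comm

/-- is the graph with edge list `l` splittable? -/
def splitb (l : List (Fin 10)) : Bool :=
  l.any (fun i => cnt (L (l.filter (fun j => j != i))) (edN i).1 == 4 &&
    cnt (L (l.filter (fun j => j != i))) (edN i).2 == 4)

lemma gr_delete (l : List (Fin 10)) (i : Fin 10) :
    (gr (l.map ed)).deleteEdges {s((ed i).1, (ed i).2)} = gr ((l.filter (fun j => j != i)).map ed) := by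
  apply eq_of_mem ((deleteEdges_le _).trans (gr_le l)) (gr_le _)
  intro j
  rw [edgeSet_deleteEdges, Set.mem_diff, gr_map_mem, gr_map_mem, List.mem_filter, eps_val,
    Set.mem_singleton_iff]
  constructor
  · rintro ⟨h1, h2⟩
    refine ⟨h1, ?_⟩
    rw [bne_iff_ne]
    rintro rfl
    exact h2 rfl
  · rintro ⟨h1, h2⟩
    rw [bne_iff_ne] at h2
    exact ⟨h1, fun h => h2 (ed_inj' _ _ h)⟩

lemma card_V : Nat.card V = 8 := by
  rw [Nat.card_eq_fintype_card]
  rfl

lemma split_iff (l : List (Fin 10)) : MST.Splittable (gr (l.map ed)) ↔ splitb l = true := by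
  unfold MST.Splittable splitb
  rw [List.any_eq_true]
  simp only [card_V, Bool.and_eq_true, beq_iff_eq]
  constructor
  · rintro ⟨a, b, hab, h1, h2⟩
    rw [gr_map_adj] at hab
    obtain ⟨i, hi, h⟩ := hab
    refine ⟨i, hi, ?_⟩
    rcases h with ⟨rfl, rfl⟩ | ⟨rfl, rfl⟩
    · rw [gr_delete, cnt_eq] at h1 h2
      rw [edN_eq]
      constructor
      · change cnt _ (cd (ed i).1) = 4
        omega
      · change cnt _ (cd (ed i).2) = 4
        omega
    · rw [Sym2.eq_swap, gr_delete, cnt_eq] at h1 h2
      rw [edN_eq]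
      constructor
      · change cnt _ (cd (ed i).1) = 4
        omega
      · change cnt _ (cd (ed i).2) = 4
        omega
  · rintro ⟨i, hi, h1, h2⟩
    rw [edN_eq] at h1 h2
    refine ⟨(ed i).1, (ed i).2, ?_, ?_, ?_⟩
    · rw [gr_map_adj]
      exact ⟨i, hi, Or.inl ⟨rfl, rfl⟩⟩
    · rw [gr_delete, cnt_eq]
      change cnt _ (cd (ed i).1) = 4 at h1
      omega
    · rw [gr_delete, cnt_eq]
      change cnt _ (cd (ed i).2) = 4 at h2
      omega

/-! ### trees -/

/-- are all labels equal? -/
def connb (M : List ℕ) : Bool := M.all (fun x => x == M.getD 0 0)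

/-- is the graph a tree? -/
def treeb (l : List (Fin 10)) : Bool := connb (L l) && l.length == 7

lemma connb_iff (l : List (Fin 10)) : (gr (l.map ed)).Connected ↔ connb (L l) = true := by
  rw [connected_iff]
  unfold connb
  rw [List.all_eq_true]
  constructor
  · rintro ⟨h, _⟩ x hx
    rw [L_eq, List.mem_map] at hx
    obtain ⟨v, _, rfl⟩ := hx
    have h1 := (reach_L l (0, 0) v).mp (h _ _)
    rw [L_getD l v] at h1
    rw [beq_iff_eq, ← h1]
    rfl
  · intro h
    refine ⟨fun x y => ?_, ⟨(0, 0)⟩⟩
    have key : ∀ v : V, (L l).getD (cd v) 0 = (L l).getD 0 0 := by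
      intro v
      have h1 : (L l).getD (cd v) 0 ∈ L l := by
        rw [L_getD, L_eq]
        apply List.mem_map_of_mem
        have : ∀ v : V, v ∈ allV := by decide
        exact this v
      have := h _ h1
      rw [beq_iff_eq] at this
      exact this
    rw [reach_L, key x, key y]

lemma card_edges (l : List (Fin 10)) (hl : l.Nodup) :
    Nat.card (gr (l.map ed)).edgeSet = l.length := by
  classical
  rw [← List.toFinset_card_of_nodup hl, ← Fintype.card_coe, ← Nat.card_eq_fintype_card]
  symm
  refine Nat.card_eq_of_bijective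
    (fun i : {i // i ∈ l.toFinset} => (⟨(eps i.1).1, (gr_map_mem l i.1).mpr
      (List.mem_toFinset.mp i.2)⟩ : (gr (l.map ed)).edgeSet)) ?_
  constructor
  · intro i j h
    have h1 : (eps i.1).1 = (eps j.1).1 :=
      congrArg (fun z : (gr (l.map ed)).edgeSet => (z : Sym2 V)) h
    exact Subtype.ext (eps.injective (Subtype.ext h1))
  · rintro ⟨z, hz⟩
    obtain ⟨i, hi⟩ := eps.surjective ⟨z, edgeSet_mono (gr_le l) hz⟩
    have h1 : (eps i).1 = z := congrArg Subtype.val hi
    refine ⟨⟨i, ?_⟩, Subtype.ext h1⟩
    rw [List.mem_toFinset, ← gr_map_mem l i, h1]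
    exact hz

lemma tree_iff (l : List (Fin 10)) (hl : l.Nodup) :
    (gr (l.map ed)).IsTree ↔ treeb l = true := by
  rw [isTree_iff_connected_and_card, card_edges l hl, connb_iff, card_V]
  unfold treeb
  rw [Bool.and_eq_true, beq_iff_eq]
  constructor
  · rintro ⟨h1, h2⟩; exact ⟨h1, by omega⟩
  · rintro ⟨h1, h2⟩; exact ⟨h1, by omega⟩

lemma el_nodup (m : ℕ) : (el m).Nodup := (List.nodup_finRange 10).filter _

/-- counting subgraphs of `G` by masks -/
lemma card_eq (P : SimpleGraph V → Prop) (pb : List (Fin 10) → Bool)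
    (h1 : ∀ m, P (gm m) ↔ pb (el m) = true) (h2 : ∀ T, P T → T ≤ G) :
    Nat.card {T // P T} = ((List.range 1024).filter (fun m => pb (el m))).length := by
  classical
  rw [← List.toFinset_card_of_nodup (List.nodup_range.filter _), ← Fintype.card_coe,
    ← Nat.card_eq_fintype_card]
  symm
  refine Nat.card_eq_of_bijective
    (fun m : {m // m ∈ ((List.range 1024).filter (fun m => pb (el m))).toFinset} =>
      (⟨gm m.1, (h1 m.1).mpr (List.mem_filter.mp (List.mem_toFinset.mp m.2)).2⟩ : {T // P T})) ?_
  constructor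
  · rintro ⟨m, hm⟩ ⟨m', hm'⟩ h
    have h3 : gm m = gm m' := congrArg Subtype.val h
    rw [List.mem_toFinset, List.mem_filter, List.mem_range] at hm hm'
    apply Subtype.ext
    apply Nat.eq_of_testBit_eq
    intro i
    change m.testBit i = m'.testBit i
    by_cases hi : i < 10
    · have h4 := gm_mem m ⟨i, hi⟩
      have h5 := gm_mem m' ⟨i, hi⟩
      rw [h3] at h4
      rw [Bool.eq_iff_iff]
      exact h4.symm.trans h5
    · have h6 : (1024 : ℕ) ≤ 2 ^ i := by
        calc (1024 : ℕ) = 2 ^ 10 := by norm_num
          _ ≤ 2 ^ i := Nat.pow_le_pow_right (by norm_num) (by omega)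
      rw [Nat.testBit_lt_two_pow (lt_of_lt_of_le hm.1 h6),
        Nat.testBit_lt_two_pow (lt_of_lt_of_le hm'.1 h6)]
  · rintro ⟨T, hT⟩
    let f : Fin 10 → Bool := fun i => decide ((eps i).1 ∈ T.edgeSet)
    have hf : ∀ i : Fin 10, (Nat.ofBits f).testBit i.val = f i := by
      intro i
      rw [Nat.testBit_ofBits_lt]
    have hlt : Nat.ofBits f < 1024 := by
      have := Nat.ofBits_lt_two_pow f
      simpa using this
    have hTm : gm (Nat.ofBits f) = T := by
      apply eq_of_mem (gm_le _) (h2 T hT)
      intro i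
      rw [gm_mem, hf]
      simp [f]
    refine ⟨⟨Nat.ofBits f, ?_⟩, Subtype.ext hTm⟩
    rw [List.mem_toFinset, List.mem_filter, List.mem_range]
    refine ⟨hlt, ?_⟩
    rw [← h1, hTm]
    exact hT

lemma card_trees : Nat.card {T // MST.IsSpanningTree G T}
    = ((List.range 1024).filter (fun m => treeb (el m))).length := by
  apply card_eq
  · intro m
    unfold MST.IsSpanningTree
    rw [← tree_iff _ (el_nodup m)]
    exact ⟨fun h => h.2, fun h => ⟨gm_le m, h⟩⟩
  · exact fun T hT => hT.1

lemma card_split_trees : Nat.card {T // MST.IsSpanningTree G T ∧ MST.Splittable T}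
    = ((List.range 1024).filter (fun m => treeb (el m) && splitb (el m))).length := by
  apply card_eq _ (fun l => treeb l && splitb l)
  · intro m
    unfold MST.IsSpanningTree
    rw [Bool.and_eq_true, ← tree_iff _ (el_nodup m), ← split_iff]
    exact ⟨fun h => ⟨h.1.2, h.2⟩, fun h => ⟨⟨gm_le m, h.1⟩, h.2⟩⟩
  · exact fun T hT => hT.1.1

set_option maxRecDepth 100000 in
lemma n_trees : ((List.range 1024).filter (fun m => treeb (el m))).length = 56 := by
  decide +kernel

set_option maxRecDepth 100000 in
lemma n_split_trees :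
    ((List.range 1024).filter (fun m => treeb (el m) && splitb (el m))).length = 44 := by
  decide +kernel

/-! ### the table -/

/-- the table of the values `45360 * W(m)`, 16 bits each -/
def tab : ℕ := 0xb130b13000000000b130b13000000000b130b13000000000b130b130b130b130b130b130b130b130b130b130b130b130b130b130b130b130b130b13000000000b130b13000000000b130b13000000000b130b13000000000b130b130b130b130b130b130b130b130b130b130b130b130b130b130b130b130b130b13000000000b130b13000000000b130b13000000000b130b13000000000b130b130b130b130b130b130b130b130b130b130b130b130b130b130b130b130b130b13000000000b130b13000000000b130b13000000000b130b13000000000b130b130b130b130b130b130b130b130b130b130b130b130b130b130b130b130b130b13000000000b130762000000000b1307620000000007620675cb1305898b1308c46b1307620b13093a8b1307620b13093a87620675c93a887d8b1308c46b1309c840000b130b130b13000005898b13093a80000589876208c465898589893a88c46b130b130b130b130b13093a8b130a26c76208c4693a89c8493a88c46a26c9c84000000007620675c000000007620675c00000000675c617458983b108c467c087620675c93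a887d87620675c93a887d8675c617487d881f08c467c089c8491b00000589876208c4600002c4c762079d100003b10675c7c082c4c3b1079d17c0876208c4693a89c84762079d193a8922e675c7c0887d891b079d17c08922e91b000000000b130b130000000007620762000000000b130b130b1305898b13093a8b130b130b130b1307620762093a893a8b130b130b130b130b13093a8b130a26c0000b1307620b13000005898675c8c4600005898762093a8589858988c468c467620b13093a8b130675c8c4687d89c84762093a893a8a26c8c468c469c849c8400000000b130b130000000007620762000000000b130b13058983b1093a889d0b130b130b130b1307620762093a893a8b130b130b130b13093a889d0a26c9d8000005898762093a800002c4c675c79d100003b10762089d02c4c3b1079d17ff8762093a893a8a26c675c79d187d8922e762089d093a89d8079d17ff8922e95a00000b130b130b130b1305898b13087d8b130b130b130b130b1307c08b130965db130b130b130b130b13087d8b1309990b130b130b130b130b130965db130a116b130b130b130b130b1307c08b130965d58987c0887d8965d7c087038965d8e08b130b130b130b130b130965db130a11687d8965d9990a116965d8e08a1169b2eb130b130b130b130589846e087d87b8ab130b130b130b1307c086660965d89f4b130b130b130b13087d87b8a9990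90fcb130b130b130b130965d89f4a11698ee58987c0887d8965d46e04fbc7b8a7c7446e066607b8a89f44fbc54f07c747d7987d8965d9990a1167b8a7c7490fc902d7b8a89f490fc98ee7c747d79902d8ff600000000b130b13000000000b130b13000000000b130b13000000000b130b130b130b130b130b130b130b130b130b130b130b130b130b130b130b130b130b13000000000b130b13000000000b130b13000000000b130b13000000000b130b130b130b130b130b130b130b130b130b130b130b130b130b130b130b130b130b13000000000b130b13000000000b130b13000000000b130b13000000000b130b130b130b130b130b130b130b130b130b130b130b130b130b130b130b130b130b13000000000b130b13000000000b130b13000000000b130b13000000000b130b130b130b130b130b130b130b130b130b130b130b130b130b130b130b130b130b13000000000b130762000000000b1307620000000007620675c58982c4c93a879d1b1307620b13093a8b1307620b13093a87620675c93a887d893a879d1a26c922e00005898b13093a800003b10b13089d000002c4c762079d13b103b1089d07ff8b13093a8b130a26cb13089d0b1309d80762079d193a8922e89d07ff89d8095a0b1305898b1308c4658982c4c93a879d158983b108c467c0858983b108c467c08b1308c46b1309c8493a879d1a26c922e8c467c089c8491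b08c467c089c8491b05898589893a88c463b103b1089d07ff82c4c3b1079d17c083b103b107ff87c0893a88c46a26c9c8489d07ff89d8095a079d17c08922e91b07ff87c0895a091b0000000007620762000000000675c675c000000007620762058982c4c8c4679d17620762093a893a8675c675c87d887d87620762093a893a88c4679d19c84922e00005898675c8c4600003b1061747c0800002c4c675c79d13b103b107c087c08675c8c4687d89c8461747c0881f091b0675c79d187d8922e7c087c0891b091b0b1305898b13093a858982c4c8c4679d158983b1093a889d058983b108c467ff8b13093a8b130a26c8c4679d19c84922e93a889d0a26c9d808c467ff89c8495a0589858988c468c463b103b107c087c082c4c3b1079d17ff83b103b107c087c088c468c469c849c847c087c0891b091b079d17ff8922e95a07c087c0891b091b0b1305898b13087d8b13046e0b1307b8a589846e087d87b8a7c084fbc965d7c74b13087d8b1309990b1307b8ab13090fc87d87b8a999090fc965d7c74a116902db1307c08b130965db1306660b13089f446e04fbc7b8a7c74666054f089f47d79b130965db130a116b13089f4b13098ee7b8a7c7490fc902d89f47d7998ee8ff6b1307c08b130965d7c084fbc965d7c747c086660965d89f4703854f08e087d79b130965db130a116965d7c74a116902d965d89f4a11698ee8e087d799b2e8ff67c087038965d8e08666054f089f47d794fbc54f07c747d7954f04e787d7977ee965d8e08a1169b2e89f47d7998ee8ff67c747d79902d8ff67d7977ee8ff68b80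

/-- the value at `m` -/
def tw (m : ℕ) : ℕ := (tab >>> (16 * m)) % 65536

/-- the check of the Kruskal recursion at `m` -/
def chk (m : ℕ) : Bool :=
  (((List.finRange 10).filter (crossb (el m))).length * tw m ==
    (((List.finRange 10).filter (crossb (el m))).map (fun i => tw (ins m i))).sum) &&
  (((List.finRange 10).filter (crossb (el m))).length != 0 ||
    tw m == (if splitb (el m) then 45360 else 0))

set_option maxRecDepth 100000 in
lemma chk_all : (List.range 1024).all chk = true := by
  decide +kernel

lemma chk_m (m : ℕ) (hm : m < 1024) : chk m = true :=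
  List.all_eq_true.mp chk_all m (List.mem_range.mpr hm)

/-- the splitting probability of the final tree, from the forest `m` -/
def W (m : ℕ) : ℚ := (tw m : ℚ) / 45360

lemma cross_eq (m : ℕ) : cross m = ((List.finRange 10).filter (crossb (el m))).toFinset := by
  unfold cross
  ext i
  simp

lemma W_zero : W 0 = 248 / 315 := by
  have : tw 0 = 35712 := by decide +kernel
  unfold W
  rw [this]
  norm_num

/-- the final value -/
def g (m : ℕ) : ℚ := if splitb (el m) then 1 else 0

lemma hW (m : ℕ) (hm : m < 1024) :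
    ((cross m).card : ℚ) * W m = ∑ x ∈ cross m, W (ins m x) := by
  have h := chk_m m hm
  unfold chk at h
  rw [Bool.and_eq_true, beq_iff_eq] at h
  have hn : ((List.finRange 10).filter (crossb (el m))).Nodup :=
    (List.nodup_finRange 10).filter _
  rw [cross_eq, List.toFinset_card_of_nodup hn, List.sum_toFinset _ hn]
  unfold W
  have h2 : (List.map (fun x => (tw (ins m x) : ℚ) / 45360)
      ((List.finRange 10).filter (crossb (el m)))).sum
      = (((List.map (fun x => tw (ins m x))
        ((List.finRange 10).filter (crossb (el m)))).sum : ℕ) : ℚ) / 45360 := by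
    generalize (List.finRange 10).filter (crossb (el m)) = l
    induction l with
    | nil => simp
    | cons a l ih =>
      simp only [List.map_cons, List.sum_cons, ih]
      push_cast
      ring
  rw [h2, ← h.1]
  push_cast
  ring

lemma hg (m : ℕ) (hm : m < 1024) (hc : cross m = ∅) : W m = g m := by
  have h := chk_m m hm
  unfold chk at h
  rw [Bool.and_eq_true, Bool.or_eq_true, bne_iff_ne, beq_iff_eq] at h
  have h0 : ((List.finRange 10).filter (crossb (el m))).length = 0 := by
    have hn : ((List.finRange 10).filter (crossb (el m))).Nodup :=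
      (List.nodup_finRange 10).filter _
    rw [← List.toFinset_card_of_nodup hn, ← cross_eq, hc]
    rfl
  have h1 := h.2.resolve_left (fun h3 => h3 h0)
  rw [beq_iff_eq] at h1
  unfold W g
  rw [h1]
  split_ifs
  · norm_num
  · norm_num

/-- the number of orderings for which Kruskal's tree is splittable -/
theorem kruskal_total :
    ∑ l ∈ Ords.ords 10 (Finset.univ : Finset (Fin 10)), g (Ords.kr cross ins 0 l)
      = (Nat.factorial 10 : ℚ) * (248 / 315) := by
  rw [← W_zero]
  exact Ords.kruskal_sum cross ins (fun m => m < 1024) (fun m x h _ => ins_lt m x h)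
    (fun m x _ _ => cross_ins m x) g W hW hg 10 Finset.univ 0 (by norm_num) (by simp)
    (Finset.subset_univ _)

end Pool.Agent.H36.Grid24
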