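import Mathlib

/-!
# The relative order of i.i.d. uniform weights is uniform
-/

open MeasureTheory Finset

namespace Pool.Agent.H36.OrderProb

variable {E : Type} [Fintype E]

/-- i.i.d. weights, uniform on `[0,1]`, indexed by `E` -/
noncomputable def unifLaw (E : Type) [Fintype E] : Measure (E → ℝ) :=
  Measure.pi fun _ : E => (volume : Measure ℝ).restrict (Set.Icc 0 1)

instance : IsProbabilityMeasure ((volume : Measure ℝ).restrict (Set.Icc 0 1)) :=
  ⟨by simp⟩

instance : IsProbabilityMeasure (unifLaw E) := by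
  unfold unifLaw
  infer_instance

lemma unifLaw_eq : unifLaw E = (volume : Measure (E → ℝ)).restrict
    (Set.pi Set.univ fun _ => Set.Icc 0 1) := by
  unfold unifLaw
  rw [volume_pi, Measure.restrict_pi_pi]

lemma unifLaw_eq_zero (i j : E) (hij : i ≠ j) : unifLaw E {w | w i = w j} = 0 := by
  rw [unifLaw_eq]
  refine le_antisymm (le_trans (Measure.restrict_apply_le _ _) ?_) bot_le
  let s : Submodule ℝ (E → ℝ) := LinearMap.ker
    ((LinearMap.proj i : (E → ℝ) →ₗ[ℝ] ℝ) - (LinearMap.proj j : (E → ℝ) →ₗ[ℝ] ℝ))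
  have hs : ((s : Set (E → ℝ))) = {w | w i = w j} := by
    ext w
    simp [s, sub_eq_zero]
  rw [← hs]
  refine le_of_eq (Measure.addHaar_submodule _ s ?_)
  intro htop
  classical
  have : Pi.single i (1 : ℝ) ∈ s := by rw [htop]; trivial
  have h2 : Pi.single i (1 : ℝ) ∈ (s : Set (E → ℝ)) := this
  rw [hs, Set.mem_setOf_eq] at h2
  rw [Pi.single_eq_same, Pi.single_eq_of_ne hij.symm] at h2
  exact one_ne_zero h2

lemma unifLaw_inj : unifLaw E {w | ¬ Function.Injective w} = 0 := by
  have : {w : E → ℝ | ¬ Function.Injective w} ⊆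
      ⋃ (p : E × E) (_ : p.1 ≠ p.2), {w | w p.1 = w p.2} := by
    intro w hw
    rw [Set.mem_setOf_eq, Function.Injective] at hw
    push_neg at hw
    obtain ⟨a, b, h1, h2⟩ := hw
    simp only [Set.mem_iUnion, Set.mem_setOf_eq]
    exact ⟨(a, b), h2, h1⟩
  refine measure_mono_null this ?_
  rw [measure_iUnion_null_iff]
  intro p
  rw [measure_iUnion_null_iff]
  intro hp
  exact unifLaw_eq_zero p.1 p.2 hp

/-- the event that the weights increase along `σ` -/
def A {n : ℕ} (σ : Fin n ≃ E) : Set (E → ℝ) := {w | StrictMono (w ∘ σ)}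

lemma measurable_A {n : ℕ} (σ : Fin n ≃ E) : MeasurableSet (A σ) := by
  have : A σ = ⋂ (i : Fin n) (j : Fin n) (_ : i < j), {w : E → ℝ | w (σ i) < w (σ j)} := by
    ext w
    simp only [A, StrictMono, Set.mem_setOf_eq, Set.mem_iInter, Function.comp]
  rw [this]
  refine MeasurableSet.iInter fun i => MeasurableSet.iInter fun j => MeasurableSet.iInter fun _ => ?_
  exact measurableSet_lt (measurable_pi_apply _) (measurable_pi_apply _)

lemma measure_A {n : ℕ} (σ τ : Fin n ≃ E) : unifLaw E (A σ) = unifLaw E (A τ) := by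
  let π : E ≃ E := τ.symm.trans σ
  have h := measurePreserving_piCongrLeft
    (fun _ : E => (volume : Measure ℝ).restrict (Set.Icc 0 1)) π
  have hp := h.measure_preimage (measurable_A σ).nullMeasurableSet
  have hset : (MeasurableEquiv.piCongrLeft (fun _ : E => ℝ) π) ⁻¹' (A σ) = A τ := by
    ext w
    simp only [A, Set.mem_preimage, Set.mem_setOf_eq]
    have : (MeasurableEquiv.piCongrLeft (fun _ : E => ℝ) π w) ∘ σ = w ∘ τ := by
      funext i
      have h3 := Equiv.piCongrLeft_apply_apply (P := fun _ : E => ℝ) (e := π) w (τ i)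
      simp only [π, Equiv.trans_apply, Equiv.symm_apply_apply] at h3
      exact h3
    rw [this]
  rw [hset] at hp
  exact hp.symm

lemma disjoint_A {n : ℕ} (σ τ : Fin n ≃ E) (h : σ ≠ τ) : Disjoint (A σ) (A τ) := by
  rw [Set.disjoint_left]
  intro w h1 h2
  apply h
  have hr : Set.range (w ∘ σ) = Set.range (w ∘ τ) := by
    rw [Set.range_comp, Set.range_comp, σ.range_eq_univ, τ.range_eq_univ]
  have he : w ∘ σ = w ∘ τ := (StrictMono.range_inj h1 h2).mp hr
  have hw : Function.Injective w := by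
    have h3 : Function.Injective (w ∘ σ) := StrictMono.injective h1
    intro a b hab
    have := @h3 (σ.symm a) (σ.symm b) (by simpa using hab)
    exact σ.symm.injective this
  apply Equiv.ext
  intro i
  exact hw (congrFun he i)

lemma exists_A {n : ℕ} (σ0 : Fin n ≃ E) (w : E → ℝ) (hw : Function.Injective w) :
    ∃ σ : Fin n ≃ E, w ∈ A σ := by
  refine ⟨(Tuple.sort (w ∘ σ0)).trans σ0, ?_⟩
  have h := Tuple.monotone_sort (w ∘ σ0)
  apply Monotone.strictMono_of_injective h
  exact (hw.comp σ0.injective).comp (Equiv.injective _)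

lemma measure_A_eq {n : ℕ} (σ : Fin n ≃ E) :
    (unifLaw E).real (A σ) = 1 / (n.factorial : ℝ) := by
  classical
  have hU : (⋃ τ : Fin n ≃ E, A τ)ᶜ ⊆ {w : E → ℝ | ¬ Function.Injective w} := by
    intro w hw hinj
    apply hw
    obtain ⟨τ, hτ⟩ := exists_A σ w hinj
    exact Set.mem_iUnion.mpr ⟨τ, hτ⟩
  have h0 : unifLaw E (⋃ τ : Fin n ≃ E, A τ)ᶜ = 0 := measure_mono_null hU unifLaw_inj
  have h1 : (unifLaw E).real (⋃ τ : Fin n ≃ E, A τ) = 1 := by
    have hm : MeasurableSet (⋃ τ : Fin n ≃ E, A τ) := MeasurableSet.iUnion measurable_A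
    have := prob_compl_eq_zero_iff hm (μ := unifLaw E)
    rw [Measure.real, this.mp h0]
    rfl
  have h2 : (unifLaw E).real (⋃ τ : Fin n ≃ E, A τ) = ∑ τ : Fin n ≃ E, (unifLaw E).real (A τ) :=
    measureReal_iUnion_fintype (fun τ τ' h => disjoint_A τ τ' h) measurable_A
  have h3 : ∀ τ : Fin n ≃ E, (unifLaw E).real (A τ) = (unifLaw E).real (A σ) := by
    intro τ
    rw [Measure.real, Measure.real, measure_A τ σ]
  rw [h1, Finset.sum_congr rfl (fun τ _ => h3 τ), Finset.sum_const, nsmul_eq_mul,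
    Finset.card_univ, Fintype.card_equiv σ, Fintype.card_fin] at h2
  have h4 : (n.factorial : ℝ) ≠ 0 := by positivity
  field_simp
  linarith

/-- Events depending only on the relative order. -/
theorem order_prob {n : ℕ} (σ0 : Fin n ≃ E) (S : Set (E → ℝ)) (P : (Fin n ≃ E) → Prop)
    [DecidablePred P] [DecidableEq E]
    (h : ∀ (σ : Fin n ≃ E) (w : E → ℝ), StrictMono (w ∘ σ) → (w ∈ S ↔ P σ)) :
    (unifLaw E).real S = ((univ.filter P).card : ℝ) / (n.factorial : ℝ) := by
  have h1 : S =ᵐ[unifLaw E] ⋃ σ ∈ univ.filter P, A σ := by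
    have hae : ∀ᵐ w ∂(unifLaw E), Function.Injective w := by
      rw [ae_iff]; exact unifLaw_inj
    filter_upwards [hae] with w hw
    obtain ⟨σ, hσ⟩ := exists_A σ0 w hw
    apply propext
    constructor
    · intro hS
      have : P σ := (h σ w hσ).mp hS
      change w ∈ ⋃ σ ∈ univ.filter P, A σ
      simp only [Set.mem_iUnion, Finset.mem_filter, Finset.mem_univ, true_and]
      exact ⟨σ, this, hσ⟩
    · intro hU
      change w ∈ ⋃ σ ∈ univ.filter P, A σ at hU
      simp only [Set.mem_iUnion, Finset.mem_filter, Finset.mem_univ, true_and] at hU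
      obtain ⟨τ, h2, h3⟩ := hU
      exact (h τ w h3).mpr h2
  rw [measureReal_congr h1, measureReal_biUnion_finset (fun σ _ τ _ hst => disjoint_A σ τ hst)
    (fun σ _ => measurable_A σ), Finset.sum_congr rfl (fun σ _ => measure_A_eq σ),
    Finset.sum_const, nsmul_eq_mul]
  ring

end Pool.Agent.H36.OrderProb
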